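import Pool.Agent.Q68.UM.S3

/-! Project UM: the key inequality (S2): the field follows every root. -/

namespace Pool.Agent.Q68.UM

open Pool.Agent.Q62.UM Real

variable {d N : ℕ} {dir : Fin N → Fin d} {x v w : Fin d → ℝ} {e m l : Fin N → ℝ} {κ : ℝ}

/-- the remainder of the difference of sines -/
lemma sin_rem (a b : ℝ) : |sin a - sin b - sin (a - b)| ≤
    √(Hf a) * Hf (b - a) / 2 + Hf a * √(Hf (b - a)) / 2 := by
  have h1 : sin a - sin b - sin (a - b) =
      sin a * (1 - cos (a - b)) - (1 - cos a) * sin (a - b) := by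
    have h2 : sin b = sin a * cos (a - b) - cos a * sin (a - b) := by
      rw [← sin_sub]
      congr 1
      ring
    rw [h2]
    ring
  have hc : ∀ y : ℝ, 1 - cos y = Hf y / 2 := fun y => by unfold Hf; ring
  rw [h1, hc, hc]
  refine (abs_sub _ _).trans ?_
  rw [abs_mul, abs_mul, abs_of_nonneg (by have := Hf_nonneg (a - b); positivity : 0 ≤ Hf (a - b) / 2),
    abs_of_nonneg (by have := Hf_nonneg a; positivity : 0 ≤ Hf a / 2), Hf_sub_comm b a]
  have h3 := mul_le_mul_of_nonneg_right (abs_sin_le a)
    (by have := Hf_nonneg (a - b); positivity : 0 ≤ Hf (a - b) / 2)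
  have h4 := mul_le_mul_of_nonneg_left (abs_sin_le (a - b))
    (by have := Hf_nonneg a; positivity : 0 ≤ Hf a / 2)
  linarith

lemma me_le (J : Jt dir x v w e m l κ) (j : Fin N) : |m j| * e j ≤ κ := by
  have h1 := (le_sqrt_self (J.e0 j).le (J.e1 j)).trans (sqrt_le_r4 (J.e0 j).le (J.e1 j))
  exact (mul_le_mul_of_nonneg_left h1 (abs_nonneg _)).trans (J.h3 j)

/-- the terms (A) -/
lemma termA (J : Jt dir x v w e m l κ) (hH : ∀ k, 0 < Hf (x k)) (j : Fin N) (i : Fin d) :
    aa dir x e j * (lam x i * |v i - v (dir j) - m j * (sin (x (dir j)) - sin (x i))|) ≤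
      10 * κ := by
  obtain ⟨k, hk⟩ : ∃ k, k = dir j := ⟨_, rfl⟩
  rw [← hk]
  have hκ := J.k0
  have hl0 := lam_nonneg x i
  have hl1 := lam_le_one x i
  have ha0 := aa_nonneg (x := x) (dir := dir) J.e0 j
  have haH := aa_mul_H_le (x := x) (dir := dir) J.e0 j
  have he := J.e0 j
  have hK := hH k
  have hi := hH i
  rw [← hk] at haH
  have h6 := J.h6 j i
  rw [← hk] at h6
  have hy2 : lam x i * Hf (x i - x k) ≤ 4 * Hf (x k) := by
    calc lam x i * Hf (x i - x k) ≤ lam x i * (2 * Hf (x i) + 2 * Hf (x k)) :=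
          mul_le_mul_of_nonneg_left (Hf_sub_le _ _) hl0
      _ = 2 * (lam x i * Hf (x i)) + 2 * (lam x i * Hf (x k)) := by ring
      _ ≤ 2 * Hf (x k) + 2 * (1 * Hf (x k)) := by
          have h1 := lam_mul hH i k
          have h2 := mul_le_mul_of_nonneg_right hl1 hK.le
          linarith
      _ = 4 * Hf (x k) := by ring
  have hy : lam x i * √(Hf (x i - x k)) ≤ 2 * √(Hf (x k)) := by
    calc lam x i * √(Hf (x i - x k)) ≤ lam x i * (√(Hf (x i)) + √(Hf (x k))) :=
          mul_le_mul_of_nonneg_left (sqrt_Hf_sub _ _) hl0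
      _ = lam x i * √(Hf (x i)) + lam x i * √(Hf (x k)) := by ring
      _ ≤ √(Hf (x k)) + 1 * √(Hf (x k)) := by
          have h1 := lam_sqrt hH i k
          have h2 := mul_le_mul_of_nonneg_right hl1 (sqrt_nonneg (Hf (x k)))
          linarith
      _ = 2 * √(Hf (x k)) := by ring
  -- main part
  have p1 : aa dir x e j * (lam x i * |v i - v k - m j * sin (x k - x i)|) ≤ 4 * κ := by
    have hden : 0 < e j ^ 2 + Hf (x k) := by positivity
    have h1 : aa dir x e j * (lam x i * |v i - v k - m j * sin (x k - x i)|) =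
        lam x i * (e j * |v i - v k - m j * sin (x k - x i)|) / (e j ^ 2 + Hf (x k)) := by
      unfold aa
      rw [← hk]
      ring
    rw [h1, div_le_iff₀ hden]
    calc lam x i * (e j * |v i - v k - m j * sin (x k - x i)|)
        ≤ lam x i * (κ * (e j ^ 2 + Hf (x i - x k))) := mul_le_mul_of_nonneg_left h6 hl0
      _ = κ * (lam x i * e j ^ 2 + lam x i * Hf (x i - x k)) := by ring
      _ ≤ κ * (1 * e j ^ 2 + 4 * Hf (x k)) := by
          refine mul_le_mul_of_nonneg_left (add_le_add ?_ hy2) hκ
          exact mul_le_mul_of_nonneg_right hl1 (sq_nonneg _)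
      _ ≤ κ * (4 * (e j ^ 2 + Hf (x k))) :=
          mul_le_mul_of_nonneg_left (by nlinarith [sq_nonneg (e j)]) hκ
      _ = 4 * κ * (e j ^ 2 + Hf (x k)) := by ring
  -- remainder
  have p2 : aa dir x e j * (lam x i * (|m j| * |sin (x k) - sin (x i) - sin (x k - x i)|)) ≤
      6 * κ := by
    have h1 := sin_rem (x k) (x i)
    have hs2 : √(Hf (x k)) ≤ 2 := sqrt_Hf_le _
    have hs0 := sqrt_nonneg (Hf (x k))
    calc aa dir x e j * (lam x i * (|m j| * |sin (x k) - sin (x i) - sin (x k - x i)|))
        ≤ aa dir x e j * (lam x i * (|m j| * (√(Hf (x k)) * Hf (x i - x k) / 2 +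
            Hf (x k) * √(Hf (x i - x k)) / 2))) := by
          refine mul_le_mul_of_nonneg_left (mul_le_mul_of_nonneg_left
            (mul_le_mul_of_nonneg_left h1 (abs_nonneg _)) hl0) ha0
      _ = aa dir x e j * |m j| * (√(Hf (x k)) / 2 * (lam x i * Hf (x i - x k)) +
            Hf (x k) / 2 * (lam x i * √(Hf (x i - x k)))) := by ring
      _ ≤ aa dir x e j * |m j| * (√(Hf (x k)) / 2 * (4 * Hf (x k)) +
            Hf (x k) / 2 * (2 * √(Hf (x k)))) := by
          refine mul_le_mul_of_nonneg_left (add_le_add ?_ ?_) (by positivity)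
          · exact mul_le_mul_of_nonneg_left hy2 (by positivity)
          · exact mul_le_mul_of_nonneg_left hy (by positivity)
      _ = 3 * |m j| * √(Hf (x k)) * (aa dir x e j * Hf (x k)) := by ring
      _ ≤ 3 * |m j| * 2 * e j := by
          refine mul_le_mul ?_ haH (by positivity) (by positivity)
          exact mul_le_mul_of_nonneg_left hs2 (by positivity)
      _ = 6 * (|m j| * e j) := by ring
      _ ≤ 6 * κ := by linarith [me_le J j]
  have h2 : |v i - v k - m j * (sin (x k) - sin (x i))| ≤
      |v i - v k - m j * sin (x k - x i)| +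
        |m j| * |sin (x k) - sin (x i) - sin (x k - x i)| := by
    rw [← abs_mul]
    refine le_trans (le_of_eq ?_) (abs_sub _ _)
    congr 1
    ring
  calc aa dir x e j * (lam x i * |v i - v k - m j * (sin (x k) - sin (x i))|)
      ≤ aa dir x e j * (lam x i * (|v i - v k - m j * sin (x k - x i)| +
        |m j| * |sin (x k) - sin (x i) - sin (x k - x i)|)) :=
        mul_le_mul_of_nonneg_left (mul_le_mul_of_nonneg_left h2 hl0) ha0
    _ = _ + _ := by rw [mul_add, mul_add]
    _ ≤ 4 * κ + 6 * κ := add_le_add p1 p2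
    _ = 10 * κ := by ring

/-- the terms (C) -/
lemma termC (J : Jt dir x v w e m l κ) (hH : ∀ k, 0 < Hf (x k)) (i j : Fin N)
    (hij : e i ≤ e j) :
    aa dir x e i * aa dir x e j / (1 + ∑ k, aa dir x e k) * |m i - m j| * |Lam x| ≤ d * κ := by
  have hκ := J.k0
  have hd : (0:ℝ) ≤ d := Nat.cast_nonneg _
  have hS := sum_aa_nonneg (x := x) (dir := dir) J.e0
  have hi0 := aa_nonneg (x := x) (dir := dir) J.e0 i
  have hj0 := aa_nonneg (x := x) (dir := dir) J.e0 j
  have hi1 := aq_le_one (x := x) (dir := dir) J.e0 i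
  have hj1 := aq_le_one (x := x) (dir := dir) J.e0 j
  obtain ⟨A, hA⟩ : ∃ A, A = aa dir x e i * aa dir x e j / (1 + ∑ k, aa dir x e k) := ⟨_, rfl⟩
  have hA0 : 0 ≤ A := by rw [hA]; positivity
  have hAi : A ≤ aa dir x e i := by
    rw [hA, mul_div_assoc]
    exact mul_le_of_le_one_right hi0 hj1
  have hAj : A ≤ aa dir x e j := by
    rw [hA, mul_comm, mul_div_assoc]
    exact mul_le_of_le_one_right hj0 hi1
  have h7 := J.h7 i j hij
  have hL := Lam_le hH (dir i)
  have hei := J.e0 i
  have hej := J.e0 j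
  have hp := sqrt_pos.2 hei
  have hq := sqrt_pos.2 hej
  have ht := sqrt_pos.2 (hH (dir i))
  have hp2 := sq_sqrt hei.le
  have hq2 := sq_sqrt hej.le
  have ht2 := sq_sqrt (hH (dir i)).le
  have haH := aa_mul_H_le (x := x) (dir := dir) J.e0 i
  have haj : aa dir x e j * e j ≤ 1 := by
    unfold aa
    have := Hf_nonneg (x (dir j))
    rw [div_mul_eq_mul_div, div_le_one (by positivity)]
    nlinarith
  rw [← hA]
  set p := √(e i)
  set q := √(e j)
  set t := √(Hf (x (dir i)))
  have key : A * q * t ≤ p := by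
    rcases le_total (p * q) t with h | h
    · have h1 : A * q * t * t ≤ p * t := by
        calc A * q * t * t = A * t ^ 2 * q := by ring
          _ ≤ aa dir x e i * t ^ 2 * q :=
            mul_le_mul_of_nonneg_right (mul_le_mul_of_nonneg_right hAi (sq_nonneg _)) hq.le
          _ ≤ e i * q := by
            rw [ht2]
            exact mul_le_mul_of_nonneg_right haH hq.le
          _ = p * (p * q) := by rw [← hp2]; ring
          _ ≤ p * t := mul_le_mul_of_nonneg_left h hp.le
      exact le_of_mul_le_mul_right h1 ht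
    · calc A * q * t ≤ A * q * (p * q) := mul_le_mul_of_nonneg_left h (by positivity)
        _ = A * q ^ 2 * p := by ring
        _ ≤ aa dir x e j * q ^ 2 * p :=
          mul_le_mul_of_nonneg_right (mul_le_mul_of_nonneg_right hAj (sq_nonneg _)) hp.le
        _ ≤ 1 * p := by
          rw [hq2]
          exact mul_le_mul_of_nonneg_right haj hp.le
        _ = p := one_mul p
  have h1 : A * |m i - m j| * |Lam x| * p ≤ d * κ * p := by
    calc A * |m i - m j| * |Lam x| * p = A * |Lam x| * (|m i - m j| * p) := by ring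
      _ ≤ A * |Lam x| * (κ * q) := mul_le_mul_of_nonneg_left h7 (by positivity)
      _ ≤ A * (d * t) * (κ * q) :=
        mul_le_mul_of_nonneg_right (mul_le_mul_of_nonneg_left hL hA0) (by positivity)
      _ = d * κ * (A * q * t) := by ring
      _ ≤ d * κ * p := mul_le_mul_of_nonneg_left key (by positivity)
  exact le_of_mul_le_mul_right h1 hp

lemma termC' (J : Jt dir x v w e m l κ) (hH : ∀ k, 0 < Hf (x k)) (i j : Fin N) :
    aa dir x e i * aa dir x e j / (1 + ∑ k, aa dir x e k) * |m i - m j| * |Lam x| ≤ d * κ := by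
  rcases le_total (e i) (e j) with h | h
  · exact termC J hH i j h
  · have := termC J hH j i h
    rwa [mul_comm (aa dir x e j), abs_sub_comm] at this

theorem t_S2 : S_S2 := by
  intro d N dir x v w e m l κ J hH j
  obtain ⟨k, hk⟩ : ∃ k, k = dir j := ⟨_, rfl⟩
  have hκ := J.k0
  have hN : (0:ℝ) ≤ N := Nat.cast_nonneg _
  have hd : (0:ℝ) ≤ d := Nat.cast_nonneg _
  have ha0 := aa_nonneg (x := x) (dir := dir) J.e0 j
  have haH := aa_mul_H_le (x := x) (dir := dir) J.e0 j
  have hS := sum_aa_nonneg (x := x) (dir := dir) J.e0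
  have he := J.e0 j
  have hMM : MM d N = N * d + N + d + 1 := by unfold MM; ring
  have dec : bb dir x v e m - v (dir j) - m j * sin (x (dir j)) =
      ∑ i, lam x i * (v i - v (dir j) - m j * (sin (x (dir j)) - sin (x i))) -
        (1 - ∑ i, lam x i) * (v (dir j) + m j * sin (x (dir j))) +
        (mb dir x e m - m j) * Lam x := by
    have h1 : ∑ i, lam x i * (v i - v (dir j) - m j * (sin (x (dir j)) - sin (x i))) =
        ∑ i, lam x i * v i - (∑ i, lam x i) * (v (dir j) + m j * sin (x (dir j))) +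
          m j * ∑ i, lam x i * sin (x i) := by
      rw [Finset.sum_mul, Finset.mul_sum, ← Finset.sum_sub_distrib, ← Finset.sum_add_distrib]
      exact Finset.sum_congr rfl fun i _ => by ring
    rw [h1]
    unfold bb Lam
    ring
  have hA : aa dir x e j *
      |∑ i, lam x i * (v i - v (dir j) - m j * (sin (x (dir j)) - sin (x i)))| ≤
      d * (10 * κ) := by
    refine (mul_le_mul_of_nonneg_left (Finset.abs_sum_le_sum_abs _ _) ha0).trans ?_
    rw [Finset.mul_sum]
    refine sum_le_card _ fun i => ?_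
    rw [abs_mul, abs_of_nonneg (lam_nonneg x i)]
    exact termA J hH j i
  have hB : aa dir x e j * |(1 - ∑ i, lam x i) * (v (dir j) + m j * sin (x (dir j)))| ≤
      2 * κ := by
    have h0 : 0 ≤ 1 - ∑ i, lam x i := by linarith [sum_lam_le x]
    have h1 : |v (dir j) + m j * sin (x (dir j))| ≤ κ + |m j| := by
      refine (abs_add_le _ _).trans (add_le_add (J.h1 _) ?_)
      rw [abs_mul]
      exact mul_le_of_le_one_right (abs_nonneg _) (abs_sin_le_one _)
    rw [abs_mul, abs_of_nonneg h0]
    calc aa dir x e j * ((1 - ∑ i, lam x i) * |v (dir j) + m j * sin (x (dir j))|)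
        ≤ aa dir x e j * (Hf (x (dir j)) * (κ + |m j|)) := by
          refine mul_le_mul_of_nonneg_left ?_ ha0
          exact mul_le_mul (one_sub_sum_le hH _) h1 (abs_nonneg _) (Hf_nonneg _)
      _ = (aa dir x e j * Hf (x (dir j))) * (κ + |m j|) := by ring
      _ ≤ e j * (κ + |m j|) := mul_le_mul_of_nonneg_right haH (by positivity)
      _ = e j * κ + |m j| * e j := by ring
      _ ≤ 1 * κ + κ := add_le_add (mul_le_mul_of_nonneg_right (J.e1 j) hκ) (me_le J j)
      _ = 2 * κ := by ring
  have hC : aa dir x e j * |(mb dir x e m - m j) * Lam x| ≤ N * (d * κ) + d * κ := by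
    have h1 : mb dir x e m - m j =
        (∑ i, aa dir x e i * (m i - m j) - m j) / (1 + ∑ i, aa dir x e i) := by
      unfold mb
      have : (1 + ∑ i, aa dir x e i) ≠ 0 := by positivity
      rw [eq_div_iff this, sub_mul, div_mul_cancel₀ _ this]
      simp only [mul_sub, Finset.sum_sub_distrib]
      rw [← Finset.sum_mul]
      ring
    have h2 : |mb dir x e m - m j| ≤
        (∑ i, aa dir x e i * |m i - m j| + |m j|) / (1 + ∑ i, aa dir x e i) := by
      rw [h1, abs_div, abs_of_pos (by linarith : (0:ℝ) < 1 + ∑ i, aa dir x e i)]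
      refine div_le_div_of_nonneg_right ((abs_sub _ _).trans (add_le_add ?_ le_rfl))
        (by linarith)
      refine (Finset.abs_sum_le_sum_abs _ _).trans (Finset.sum_le_sum fun i _ => ?_)
      rw [abs_mul, abs_of_nonneg (aa_nonneg J.e0 i)]
    rw [abs_mul]
    calc aa dir x e j * (|mb dir x e m - m j| * |Lam x|)
        ≤ aa dir x e j * ((∑ i, aa dir x e i * |m i - m j| + |m j|) /
            (1 + ∑ i, aa dir x e i) * |Lam x|) :=
          mul_le_mul_of_nonneg_left (mul_le_mul_of_nonneg_right h2 (abs_nonneg _)) ha0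
      _ = ∑ i, aa dir x e i * aa dir x e j / (1 + ∑ k, aa dir x e k) * |m i - m j| * |Lam x| +
            aa dir x e j / (1 + ∑ i, aa dir x e i) * |m j| * |Lam x| := by
          have : aa dir x e j * ((∑ i, aa dir x e i * |m i - m j| + |m j|) /
              (1 + ∑ i, aa dir x e i) * |Lam x|) =
              (∑ i, aa dir x e i * |m i - m j|) * (aa dir x e j /
              (1 + ∑ i, aa dir x e i) * |Lam x|) +
              aa dir x e j / (1 + ∑ i, aa dir x e i) * |m j| * |Lam x| := by ring
          rw [this, Finset.sum_mul]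
          congr 1
          exact Finset.sum_congr rfl fun i _ => by ring
      _ ≤ N * (d * κ) + d * κ := by
          refine add_le_add (sum_le_card _ fun i => termC' J hH i j) ?_
          have h3 := Lam_le hH (dir j)
          have h4 := A_r2 (x := x) (dir := dir) J.e0 j
          have h5 := sqrt_le_r4 (J.e0 j).le (J.e1 j)
          have h6 := J.h3 j
          have h7 := A_nonneg (x := x) (dir := dir) J.e0 j
          calc aa dir x e j / (1 + ∑ i, aa dir x e i) * |m j| * |Lam x|
              ≤ aa dir x e j / (1 + ∑ i, aa dir x e i) * |m j| * (d * √(Hf (x (dir j)))) :=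
                mul_le_mul_of_nonneg_left h3 (by positivity)
            _ = d * |m j| *
                (aa dir x e j / (1 + ∑ i, aa dir x e i) * √(Hf (x (dir j)))) := by ring
            _ ≤ d * |m j| * √(e j) := mul_le_mul_of_nonneg_left h4 (by positivity)
            _ ≤ d * |m j| * √(√(e j)) := mul_le_mul_of_nonneg_left h5 (by positivity)
            _ = d * (|m j| * √(√(e j))) := by ring
            _ ≤ d * κ := mul_le_mul_of_nonneg_left h6 hd
  rw [dec]
  calc aa dir x e j * |∑ i, lam x i * (v i - v (dir j) - m j * (sin (x (dir j)) - sin (x i))) -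
        (1 - ∑ i, lam x i) * (v (dir j) + m j * sin (x (dir j))) +
        (mb dir x e m - m j) * Lam x|
      ≤ aa dir x e j * (|∑ i, lam x i * (v i - v (dir j) - m j * (sin (x (dir j)) -
          sin (x i)))| + |(1 - ∑ i, lam x i) * (v (dir j) + m j * sin (x (dir j)))| +
        |(mb dir x e m - m j) * Lam x|) := by
        refine mul_le_mul_of_nonneg_left ?_ ha0
        exact (abs_add_le _ _).trans (add_le_add_left (abs_sub _ _) _)
    _ = _ + _ + _ := by rw [mul_add, mul_add]
    _ ≤ d * (10 * κ) + 2 * κ + (N * (d * κ) + d * κ) := add_le_add (add_le_add hA hB) hC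
    _ = (11 * d + 2 + N * d) * κ := by ring
    _ ≤ 15 * MM d N * κ := by
        refine mul_le_mul_of_nonneg_right ?_ hκ
        rw [hMM]
        nlinarith [mul_nonneg hN hd]

end Pool.Agent.Q68.UM
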