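import Pool.Agent.Q62.UM.Stm1

/-! Project UM: the bounds of the field (S3). -/

namespace Pool.Agent.Q68.UM

open Pool.Agent.Q62.UM Real

variable {d N : ℕ} {dir : Fin N → Fin d} {x v w : Fin d → ℝ} {e m l : Fin N → ℝ} {κ : ℝ}

/-- `|mb| ≤ ∑ A j |m j|` -/
lemma mb_le (he : ∀ j, 0 < e j) :
    |mb dir x e m| ≤ ∑ j, aa dir x e j / (1 + ∑ i, aa dir x e i) * |m j| := by
  have h0 := sum_aa_nonneg (x := x) (dir := dir) he
  unfold mb
  rw [abs_div, abs_of_pos (by linarith : (0:ℝ) < 1 + ∑ j, aa dir x e j)]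
  have h1 : |∑ j, aa dir x e j * m j| ≤ ∑ j, aa dir x e j * |m j| := by
    refine (Finset.abs_sum_le_sum_abs _ _).trans (Finset.sum_le_sum fun j _ => ?_)
    rw [abs_mul, abs_of_nonneg (aa_nonneg he j)]
  refine (div_le_div_of_nonneg_right h1 (by linarith)).trans (le_of_eq ?_)
  rw [Finset.sum_div]
  exact Finset.sum_congr rfl fun j _ => by ring

/-- `A j H^(1/4) ≤ e^(1/4)` -/
lemma A_r4 (he : ∀ j, 0 < e j) (j : Fin N) :
    aa dir x e j / (1 + ∑ i, aa dir x e i) * √(√(Hf (x (dir j)))) ≤ √(√(e j)) :=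
  (mul_le_mul_of_nonneg_right (aq_le he j) (sqrt_nonneg _)).trans (k2_le (he j) (Hf_nonneg _))

/-- `A j √H ≤ √e` -/
lemma A_r2 (he : ∀ j, 0 < e j) (j : Fin N) :
    aa dir x e j / (1 + ∑ i, aa dir x e i) * √(Hf (x (dir j))) ≤ √(e j) := by
  have h1 := (mul_le_mul_of_nonneg_right (aq_le (x := x) (dir := dir) he j)
    (sqrt_nonneg (Hf (x (dir j))))).trans (k1_le (he j) (Hf_nonneg _))
  have := sqrt_nonneg (e j)
  linarith

lemma A_nonneg (he : ∀ j, 0 < e j) (j : Fin N) :
    0 ≤ aa dir x e j / (1 + ∑ i, aa dir x e i) :=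
  div_nonneg (aa_nonneg he j) (by have := sum_aa_nonneg (x := x) (dir := dir) he; linarith)

lemma le_sqrt_self {a : ℝ} (h0 : 0 ≤ a) (h1 : a ≤ 1) : a ≤ √a :=
  le_sqrt_of_sq_le (by nlinarith)

lemma sqrt_le_r4 {a : ℝ} (h0 : 0 ≤ a) (h1 : a ≤ 1) : √a ≤ √(√a) :=
  sqrt_le_sqrt (le_sqrt_self h0 h1)

/-- `min 1 a ≤ a^(1/4)` -/
lemma min_le_r4 {a b : ℝ} (h0 : 0 ≤ a) (hb : b ≤ a) (hb1 : b ≤ 1) : b ≤ √(√a) := by
  rcases le_total a 1 with h | h
  · exact hb.trans ((le_sqrt_self h0 h).trans (sqrt_le_r4 h0 h))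
  · refine hb1.trans ?_
    rw [one_le_sqrt, one_le_sqrt]
    exact h

/-- `|Λ| ≤ d H j^(1/4) H k^(1/4)` -/
lemma Lam_r4 (h : ∀ k, 0 < Hf (x k)) (j k : Fin d) :
    |Lam x| ≤ d * (√(√(Hf (x j))) * √(√(Hf (x k)))) := by
  have h1 := Lam_le h j
  have h2 := Lam_le h k
  have h3 : |Lam x| ^ 2 ≤ (d * (√(√(Hf (x j))) * √(√(Hf (x k))))) ^ 2 := by
    rw [mul_pow, mul_pow, sq_sqrt (sqrt_nonneg _), sq_sqrt (sqrt_nonneg _), sq]
    calc |Lam x| * |Lam x| ≤ (d * √(Hf (x j))) * (d * √(Hf (x k))) :=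
          mul_le_mul h1 h2 (abs_nonneg _) (by positivity)
      _ = _ := by ring
  have := abs_le_of_sq_le_sq h3 (by positivity)
  rwa [abs_abs] at this

lemma sum_lam_mul_le {B : ℝ} (hB : 0 ≤ B) (f : Fin d → ℝ) (hf : ∀ i, f i ≤ B) :
    ∑ i, lam x i * f i ≤ B := by
  calc ∑ i, lam x i * f i ≤ ∑ i, lam x i * B :=
        Finset.sum_le_sum fun i _ => mul_le_mul_of_nonneg_left (hf i) (lam_nonneg x i)
    _ = (∑ i, lam x i) * B := (Finset.sum_mul _ _ _).symm
    _ ≤ 1 * B := mul_le_mul_of_nonneg_right (sum_lam_le x) hB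
    _ = B := one_mul B

lemma sum_le_card {n : ℕ} {B : ℝ} (f : Fin n → ℝ) (hf : ∀ i, f i ≤ B) : ∑ i, f i ≤ n * B := by
  refine (Finset.sum_le_sum fun i _ => hf i).trans ?_
  rw [Finset.sum_const, nsmul_eq_mul, Finset.card_univ, Fintype.card_fin]

/-- decomposition of `b - v k` -/
lemma bb_sub (k : Fin d) : bb dir x v e m - v k =
    ∑ i, lam x i * (v i - v k) - (1 - ∑ i, lam x i) * v k + mb dir x e m * Lam x := by
  unfold bb
  simp only [mul_sub, Finset.sum_sub_distrib]
  rw [← Finset.sum_mul]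
  ring

theorem t_S3 : S_S3 := by
  intro d N dir x v w e m l κ J hH
  have hκ := J.k0
  have hMM : MM d N = N * d + N + d + 1 := by unfold MM; ring
  have hN : (0:ℝ) ≤ N := Nat.cast_nonneg _
  have hd : (0:ℝ) ≤ d := Nat.cast_nonneg _
  constructor
  · have h1 : |∑ k, lam x k * v k| ≤ κ := by
      refine (Finset.abs_sum_le_sum_abs _ _).trans ?_
      have : ∀ k ∈ (Finset.univ : Finset (Fin d)), |lam x k * v k| = lam x k * |v k| := by
        intro k _
        rw [abs_mul, abs_of_nonneg (lam_nonneg x k)]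
      rw [Finset.sum_congr rfl this]
      exact sum_lam_mul_le hκ _ J.h1
    have h2 : |mb dir x e m| * |Lam x| ≤ N * (d * κ) := by
      refine (mul_le_mul_of_nonneg_right (mb_le J.e0) (abs_nonneg _)).trans ?_
      rw [Finset.sum_mul]
      refine sum_le_card _ fun j => ?_
      have h3 := Lam_le hH (dir j)
      have h4 := A_r2 (x := x) (dir := dir) J.e0 j
      have h5 := sqrt_le_r4 (J.e0 j).le (J.e1 j)
      have h6 := J.h3 j
      have h7 := A_nonneg (x := x) (dir := dir) J.e0 j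
      calc aa dir x e j / (1 + ∑ i, aa dir x e i) * |m j| * |Lam x|
          ≤ aa dir x e j / (1 + ∑ i, aa dir x e i) * |m j| * (d * √(Hf (x (dir j)))) :=
            mul_le_mul_of_nonneg_left h3 (by positivity)
        _ = d * |m j| * (aa dir x e j / (1 + ∑ i, aa dir x e i) * √(Hf (x (dir j)))) := by ring
        _ ≤ d * |m j| * √(e j) := mul_le_mul_of_nonneg_left h4 (by positivity)
        _ ≤ d * |m j| * √(√(e j)) := mul_le_mul_of_nonneg_left h5 (by positivity)
        _ = d * (|m j| * √(√(e j))) := by ring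
        _ ≤ d * κ := mul_le_mul_of_nonneg_left h6 hd
    calc |bb dir x v e m| ≤ |∑ k, lam x k * v k| + |mb dir x e m * Lam x| := abs_add_le _ _
      _ ≤ κ + N * (d * κ) := by
        rw [abs_mul]
        exact add_le_add h1 h2
      _ ≤ MM d N * κ := by
        rw [hMM]
        nlinarith [mul_nonneg hN hκ, mul_nonneg hd hκ]
  · intro k
    obtain ⟨r, hr⟩ : ∃ r, r = √(√(Hf (x k))) := ⟨_, rfl⟩
    have hr0 : 0 ≤ r := hr ▸ sqrt_nonneg _
    rw [← hr, bb_sub]
    have h1 : |∑ i, lam x i * (v i - v k)| ≤ d * (2 * (κ * r)) := by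
      refine (Finset.abs_sum_le_sum_abs _ _).trans (sum_le_card _ fun i => ?_)
      rw [abs_mul, abs_of_nonneg (lam_nonneg x i)]
      have h2 := lam_r4 hH i k
      have h3 := lam_le_one x i
      have h0 := lam_nonneg x i
      rw [← hr] at h2
      calc lam x i * |v i - v k| ≤ lam x i * (κ * (√(√(Hf (x i))) + r)) := by
            refine mul_le_mul_of_nonneg_left ((J.h5 i k).trans ?_) h0
            rw [hr]
            exact mul_le_mul_of_nonneg_left (r4_Hf_sub _ _) hκ
        _ = κ * (lam x i * √(√(Hf (x i)))) + κ * (lam x i * r) := by ring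
        _ ≤ κ * r + κ * (1 * r) :=
            add_le_add (mul_le_mul_of_nonneg_left h2 hκ)
              (mul_le_mul_of_nonneg_left (mul_le_mul_of_nonneg_right h3 hr0) hκ)
        _ = 2 * (κ * r) := by ring
    have h2 : |(1 - ∑ i, lam x i) * v k| ≤ r * κ := by
      have h0 : 0 ≤ 1 - ∑ i, lam x i := by linarith [sum_lam_le x]
      rw [abs_mul, abs_of_nonneg h0]
      refine mul_le_mul ?_ (J.h1 k) (abs_nonneg _) hr0
      rw [hr]
      refine min_le_r4 (Hf_nonneg _) (one_sub_sum_le hH k) ?_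
      linarith [Finset.sum_nonneg fun i (_ : i ∈ (Finset.univ : Finset (Fin d))) =>
        lam_nonneg x i]
    have h3 : |mb dir x e m| * |Lam x| ≤ N * (d * κ * r) := by
      refine (mul_le_mul_of_nonneg_right (mb_le J.e0) (abs_nonneg _)).trans ?_
      rw [Finset.sum_mul]
      refine sum_le_card _ fun j => ?_
      have h3 := Lam_r4 hH (dir j) k
      have h4 := A_r4 (x := x) (dir := dir) J.e0 j
      have h6 := J.h3 j
      have h7 := A_nonneg (x := x) (dir := dir) J.e0 j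
      rw [← hr] at h3
      calc aa dir x e j / (1 + ∑ i, aa dir x e i) * |m j| * |Lam x|
          ≤ aa dir x e j / (1 + ∑ i, aa dir x e i) * |m j| *
              (d * (√(√(Hf (x (dir j)))) * r)) :=
            mul_le_mul_of_nonneg_left h3 (by positivity)
        _ = d * |m j| * r *
            (aa dir x e j / (1 + ∑ i, aa dir x e i) * √(√(Hf (x (dir j))))) := by ring
        _ ≤ d * |m j| * r * √(√(e j)) := mul_le_mul_of_nonneg_left h4 (by positivity)
        _ = d * (|m j| * √(√(e j))) * r := by ring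
        _ ≤ d * κ * r :=
            mul_le_mul_of_nonneg_right (mul_le_mul_of_nonneg_left h6 hd) hr0
    calc |∑ i, lam x i * (v i - v k) - (1 - ∑ i, lam x i) * v k + mb dir x e m * Lam x|
        ≤ |∑ i, lam x i * (v i - v k)| + |(1 - ∑ i, lam x i) * v k| +
            |mb dir x e m * Lam x| :=
          (abs_add_le _ _).trans (add_le_add_left (abs_sub _ _) _)
      _ ≤ d * (2 * (κ * r)) + r * κ + N * (d * κ * r) := by
        rw [abs_mul (mb dir x e m)]
        exact add_le_add (add_le_add h1 h2) h3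
      _ = (2 * d + 1 + N * d) * (κ * r) := by ring
      _ ≤ (3 * MM d N) * (κ * r) := by
        refine mul_le_mul_of_nonneg_right ?_ (by positivity)
        rw [hMM]
        nlinarith [mul_nonneg hN hd]
      _ = 3 * MM d N * κ * r := by ring

end Pool.Agent.Q68.UM
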