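import Pool.Agent.Q62.UM.Stm1

/-! Project UM: `xi` is bounded and increases in `θ` (S8). -/

namespace Pool.Agent.Q68.UM

open Pool.Agent.Q62.UM Real

lemma Ah_le (s x : ℝ) : |Ah s x| ≤ 2 := by
  unfold Ah
  rw [abs_le]
  have h1 := arctan_lt_pi_div_two (sin x / (1 + s - cos x))
  have h2 := neg_pi_div_two_lt_arctan (sin x / (1 + s - cos x))
  have h3 := pi_le_four
  constructor <;> linarith

lemma card_le (d N : ℕ) : (N:ℝ) + d * d ≤ MM d N ^ 2 := by
  unfold MM
  have hN : (0:ℝ) ≤ N := Nat.cast_nonneg _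
  have hd : (0:ℝ) ≤ d := Nat.cast_nonneg _
  have h1 : (1:ℝ) ≤ (N + 1) ^ 2 := by nlinarith
  have h2 : (1:ℝ) ≤ (d + 1) ^ 2 := by nlinarith
  have h3 : (0:ℝ) ≤ ((N + 1) ^ 2 - 1) * ((d + 1) ^ 2 - 1) :=
    mul_nonneg (by linarith) (by linarith)
  have h4 : (((N:ℝ) + 1) * (d + 1)) ^ 2 =
    ((N + 1) ^ 2 - 1) * ((d + 1) ^ 2 - 1) + (N + 1) ^ 2 + (d + 1) ^ 2 - 1 := by ring
  rw [h4]
  nlinarith

/-- sums over the roots and the pairs -/
lemma two_sums {d N : ℕ} {B : ℝ} (hB : 0 ≤ B) (f : Fin N → ℝ) (g : Fin d → Fin d → ℝ)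
    (hf : ∀ j, f j ≤ B) (hg : ∀ k i, g k i ≤ B) :
    ∑ j, f j + ∑ k, ∑ i ∈ Finset.univ.erase k, g k i ≤ B * MM d N ^ 2 := by
  have h1 : ∑ j, f j ≤ N * B := by
    refine (Finset.sum_le_sum fun i _ => hf i).trans ?_
    rw [Finset.sum_const, nsmul_eq_mul, Finset.card_univ, Fintype.card_fin]
  have h2 : ∑ k, ∑ i ∈ Finset.univ.erase k, g k i ≤ d * (d * B) := by
    have h3 : ∀ k ∈ (Finset.univ : Finset (Fin d)), ∑ i ∈ Finset.univ.erase k, g k i ≤ d * B := by
      intro k _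
      refine (Finset.sum_le_sum fun i _ => hg k i).trans ?_
      rw [Finset.sum_const, nsmul_eq_mul]
      refine mul_le_mul_of_nonneg_right ?_ hB
      have : (Finset.univ.erase k).card ≤ (Finset.univ : Finset (Fin d)).card :=
        Finset.card_le_card (Finset.erase_subset _ _)
      rw [Finset.card_univ, Fintype.card_fin] at this
      exact_mod_cast this
    refine (Finset.sum_le_sum h3).trans ?_
    rw [Finset.sum_const, nsmul_eq_mul, Finset.card_univ, Fintype.card_fin]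
  calc ∑ j, f j + ∑ k, ∑ i ∈ Finset.univ.erase k, g k i ≤ N * B + d * (d * B) := add_le_add h1 h2
    _ = B * (N + d * d) := by ring
    _ ≤ B * MM d N ^ 2 := mul_le_mul_of_nonneg_left (card_le d N) hB

/-- `s / (s² + H) / 3 ≤ s (1 + s/2) / (s² + (1 + s) H)` -/
lemma ker_le {s H : ℝ} (hs : 0 ≤ s) (hH : 0 < H) :
    s / (s ^ 2 + H) / 3 ≤ s * (1 + s / 2) / (s ^ 2 + (1 + s) * H) := by
  rw [div_div, div_le_div_iff₀ (by positivity) (by positivity)]
  have h1 : s ^ 2 + (1 + s) * H ≤ (1 + s / 2) * ((s ^ 2 + H) * 3) := by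
    nlinarith [mul_nonneg hs hH.le, mul_nonneg hs (sq_nonneg s), sq_nonneg s]
  calc s * (s ^ 2 + (1 + s) * H) ≤ s * ((1 + s / 2) * ((s ^ 2 + H) * 3)) :=
        mul_le_mul_of_nonneg_left h1 hs
    _ = _ := by ring

theorem t_S8 : S_S8 := by
  intro d N dir x e he he1
  constructor
  · unfold xi
    have h1 := two_sums (d := d) (N := N) (B := 2) (by norm_num)
      (fun j => |Ah (√(e j)) (x (dir j))|) (fun k i => |Ah (√(Hf (x i - x k))) (x k)|)
      (fun j => Ah_le _ _) (fun k i => Ah_le _ _)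
    refine (abs_add_le _ _).trans (le_trans (add_le_add (Finset.abs_sum_le_sum_abs _ _) ?_) h1)
    refine (Finset.abs_sum_le_sum_abs _ _).trans (Finset.sum_le_sum fun k _ => ?_)
    exact Finset.abs_sum_le_sum_abs _ _
  · intro hH
    have h2 := two_sums (d := d) (N := N) (B := 1 / 2) (by norm_num)
      (fun j => √(e j) / (e j + Hf (x (dir j))) / 3 - dAh (√(e j)) (x (dir j)) 0 1)
      (fun k i => √(Hf (x i - x k)) / (Hf (x i - x k) + Hf (x k)) / 3 -
        dAh (√(Hf (x i - x k))) (x k) 0 1)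
      (fun j => by
        have := ker_le (sqrt_nonneg (e j)) (hH (dir j))
        rw [sq_sqrt (he j).le] at this
        unfold dAh
        rw [sq_sqrt (he j).le]
        linarith)
      (fun k i => by
        have := ker_le (sqrt_nonneg (Hf (x i - x k))) (hH k)
        rw [sq_sqrt (Hf_nonneg _)] at this
        unfold dAh
        rw [sq_sqrt (Hf_nonneg _)]
        linarith)
    have h3 : dxi dir x (fun _ => 1) e (fun _ => 0) =
        ∑ j, dAh (√(e j)) (x (dir j)) 0 1 +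
          ∑ k, ∑ i ∈ Finset.univ.erase k, dAh (√(Hf (x i - x k))) (x k) 0 1 := by
      unfold dxi
      simp
    rw [h3]
    simp only [Finset.sum_sub_distrib, ← Finset.sum_div] at h2
    have h4 := card_le d N
    have h5 : (1:ℝ) ≤ MM d N ^ 2 := by
      unfold MM
      have hN : (0:ℝ) ≤ N := Nat.cast_nonneg _
      have hd : (0:ℝ) ≤ d := Nat.cast_nonneg _
      have : (1:ℝ) ≤ (N + 1) * (d + 1) := by nlinarith
      nlinarith
    unfold KK
    linarith

end Pool.Agent.Q68.UM
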