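import Pool.Agent.Q62.UM.Stm1

/-! Project UM: the final inequality (S9), numbers only. -/

namespace Pool.Agent.Q68.UM

open Pool.Agent.Q62.UM Real

theorem t_S9 : S_S9 := by
  intro C κ K ξ ξθ ξV b bθ bV ΘV c s hC hκ hCκ hK hcs hb hbV hbθ hξV hξθ hξ hΘ
  have hκC : κ ≤ C * κ := by nlinarith
  have hkx : |κ * ξ| ≤ 1 / 2 := by
    rw [abs_mul, abs_of_nonneg hκ]
    calc κ * |ξ| ≤ κ * C := mul_le_mul_of_nonneg_left hξ hκ
      _ ≤ 1 / 2 := by linarith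
  have hkx2 := abs_le.1 hkx
  have hc1 : |c| ≤ 1 := abs_le_one_iff_mul_self_le_one.2 (by nlinarith [sq_nonneg s])
  have hc2 : c ^ 2 ≤ 1 := by nlinarith [sq_nonneg s]
  have hs1 : |s| ≤ 1 := abs_le_one_iff_mul_self_le_one.2 (by nlinarith [sq_nonneg c])
  set σ := s - b * c with hσ
  have hσ1 : |σ| ≤ 3 / 2 := by
    calc |σ| ≤ |s| + |b * c| := abs_sub _ _
      _ ≤ 1 + 1 / 2 * 1 := by
        rw [abs_mul]
        exact add_le_add hs1 (mul_le_mul (hb.trans hCκ) hc1 (abs_nonneg _) (by norm_num))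
      _ = 3 / 2 := by norm_num
  have hσ3 : σ ^ 2 ≤ 3 := by
    nlinarith [sq_abs σ, abs_nonneg σ]
  have hCκ0 : 0 ≤ C * κ := by positivity
  -- the two products
  set T := c * σ with hT
  have hT2 : T ^ 2 ≤ σ ^ 2 := by
    rw [hT, mul_pow]
    nlinarith [sq_nonneg σ, sq_nonneg s]
  have key : ∀ z : ℝ, z ^ 2 ≤ (C * κ) ^ 2 * K → ∀ q : ℝ, 0 < q →
      |T * z| ≤ q * σ ^ 2 * K + (C * κ) ^ 2 / (4 * q) := by
    intro z hz q hq
    have h1 : (T * z) ^ 2 ≤ (q * σ ^ 2 * K + (C * κ) ^ 2 / (4 * q)) ^ 2 := by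
      have h2 : (T * z) ^ 2 ≤ σ ^ 2 * ((C * κ) ^ 2 * K) := by
        rw [mul_pow]
        exact mul_le_mul hT2 hz (sq_nonneg _) (sq_nonneg _)
      have h3 : (q * σ ^ 2 * K + (C * κ) ^ 2 / (4 * q)) ^ 2 =
          (q * σ ^ 2 * K - (C * κ) ^ 2 / (4 * q)) ^ 2 + σ ^ 2 * ((C * κ) ^ 2 * K) := by
        field_simp
        ring
      rw [h3]
      nlinarith [sq_nonneg (q * σ ^ 2 * K - (C * κ) ^ 2 / (4 * q))]
    exact abs_le_of_sq_le_sq h1 (by positivity)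
  have hσK : 0 ≤ κ * (σ ^ 2 * K) := by positivity
  -- bounds of the terms
  have b1 : -(κ * ξθ) * σ ^ 2 ≤ -(κ * (σ ^ 2 * K)) / 3 + 3 * (C * κ) := by
    have h1 : κ * σ ^ 2 * (K / 3 - C) ≤ κ * σ ^ 2 * ξθ :=
      mul_le_mul_of_nonneg_left hξθ (by positivity)
    have h2 : (C * κ) * σ ^ 2 ≤ (C * κ) * 3 := mul_le_mul_of_nonneg_left hσ3 hCκ0
    nlinarith
  have b2 : |T * (κ * ξV)| ≤ κ * (σ ^ 2 * K) / 12 + κ := by
    have h1 := key ξV hξV (1 / 12) (by norm_num)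
    have h2 : (C * κ) ^ 2 / (4 * (1 / 12)) ≤ 1 := by
      have : (C * κ) ^ 2 ≤ (1 / 2) ^ 2 := pow_le_pow_left₀ hCκ0 hCκ 2
      rw [div_le_one (by norm_num)]
      linarith
    have h3 : |T * (κ * ξV)| = κ * |T * ξV| := by
      rw [show T * (κ * ξV) = κ * (T * ξV) by ring, abs_mul, abs_of_nonneg hκ]
    rw [h3]
    have h4 : κ * |T * ξV| ≤ κ * (1 / 12 * σ ^ 2 * K + 1) :=
      mul_le_mul_of_nonneg_left (h1.trans (by linarith)) hκ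
    nlinarith
  have b3 : |T * bθ| ≤ κ * (σ ^ 2 * K) / 18 + 9 / 2 * (C ^ 2 * κ) := by
    rcases hκ.eq_or_lt with h0 | h0
    · have h1 : bθ = 0 := by
        rw [← h0] at hbθ
        have : bθ ^ 2 ≤ 0 := by simpa using hbθ
        exact pow_eq_zero_iff two_ne_zero |>.1 (le_antisymm this (sq_nonneg _))
      rw [h1, mul_zero, abs_zero]
      positivity
    · have h1 := key bθ hbθ (κ / 18) (by positivity)
      have h2 : (C * κ) ^ 2 / (4 * (κ / 18)) = 9 / 2 * (C ^ 2 * κ) := by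
        field_simp
        ring
      rw [h2] at h1
      nlinarith
  have g1 : ∀ g z B : ℝ, 0 ≤ g → g ≤ 3 / 2 → |z| ≤ B → |g * z| ≤ 3 / 2 * B := by
    intro g z B h0 h1 h2
    rw [abs_mul, abs_of_nonneg h0]
    exact mul_le_mul h1 h2 (abs_nonneg _) (by norm_num)
  have hcV : |c ^ 2 * bV| ≤ C * κ := by
    rw [abs_mul, abs_of_nonneg (sq_nonneg c)]
    calc c ^ 2 * |bV| ≤ 1 * (C * κ) := mul_le_mul hc2 hbV (abs_nonneg _) zero_le_one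
      _ = C * κ := one_mul _
  have hCC : C * κ ≤ C ^ 2 * κ := by nlinarith
  have hκCC : κ ≤ C ^ 2 * κ := by linarith
  have p1 : (0:ℝ) ≤ 1 + κ * ξ := by linarith
  have p2 : 1 + κ * ξ ≤ 3 / 2 := by linarith
  have q1 : (0:ℝ) ≤ 1 - κ * ξ := by linarith
  have q2 : 1 - κ * ξ ≤ 3 / 2 := by linarith
  have b2' := abs_le.1 b2
  refine ⟨⟨by linarith, by linarith⟩, ?_, ?_⟩
  · have a1 := abs_le.1 (g1 _ _ _ p1 p2 hcV)
    have a2 := abs_le.1 (g1 _ _ _ p1 p2 b3)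
    have a3 := abs_le.1 (g1 _ _ _ p1 p2 hΘ)
    have a4 := abs_le.1 (g1 _ _ _ p1 p2 hb)
    linarith [a1.2, a2.2, a3.1, a4.2, b2'.1, b2'.2]
  · have a1 := abs_le.1 (g1 _ _ _ q1 q2 hcV)
    have a2 := abs_le.1 (g1 _ _ _ q1 q2 b3)
    have a3 := abs_le.1 (g1 _ _ _ q1 q2 hΘ)
    have a4 := abs_le.1 (g1 _ _ _ q1 q2 hb)
    linarith [a1.1, a2.1, a3.2, a4.1, b2'.1, b2'.2]

end Pool.Agent.Q68.UM
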